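import Pool.Agent.helper20.Sz.B1

/-! Module SZ-B2: locality of surgeries. -/

open scoped symmDiff

namespace Pool.Agent.helper20.Sz
namespace B2
variable {X E : Type} [DecidableEq X] {K : Cube X E}

theorem sd_swap (v F G : Finset X) : (v ∆ F) ∆ G = (v ∆ G) ∆ F := by
  rw [symmDiff_assoc, symmDiff_assoc, symmDiff_comm F G]

theorem local_same1 (hK : K.IsCore) {v : Finset X} {c : X} {s : E → Bool} (b : Bool)
    (hs : ∀ x y, K.same v x y → s x = s y)
    (hc : s (K.tail c) = b ∧ s (K.head c) = b) (x y : E) (hx : s x = !b) :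
    K.same (v ∆ {c}) x y ↔ K.same v x y := by
  have hs' := B1.inv_flip1 hK s v c hs (hc.1.trans hc.2.symm)
  have hbb : ¬ ((!b) = b) := by cases b <;> decide
  by_cases h : K.Loop v c
  · refine ⟨B1.finer1 hK h, fun hxy => ?_⟩
    have h1 := hK.split v c h
    have h2 := hK.merge (v ∆ {c}) c h1 x y
    rw [B1.sd_cancel] at h2
    rcases h2.1 hxy with h3 | ⟨h3, _⟩ | ⟨h3, _⟩
    · exact h3
    · exact absurd ((hx.symm.trans (hs' _ _ h3)).trans hc.1) hbb
    · exact absurd ((hx.symm.trans (hs' _ _ h3)).trans hc.2) hbb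
  · refine ⟨fun hxy => ?_, B1.coarser1 hK h⟩
    rcases (hK.merge v c h x y).1 hxy with h3 | ⟨h3, _⟩ | ⟨h3, _⟩
    · exact h3
    · exact absurd ((hx.symm.trans (hs _ _ h3)).trans hc.1) hbb
    · exact absurd ((hx.symm.trans (hs _ _ h3)).trans hc.2) hbb

/-- surgeries in the region `s = b` do not change the circles in the region `s = !b` -/
theorem local_same (hK : K.IsCore) {v F : Finset X} {s : E → Bool} (b : Bool)
    (hs : ∀ x y, K.same v x y → s x = s y)
    (hF : ∀ c ∈ F, s (K.tail c) = b ∧ s (K.head c) = b) :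
    ∀ x y, s x = !b → (K.same (v ∆ F) x y ↔ K.same v x y) := by
  intro x y hx
  induction F using Finset.induction_on generalizing v with
  | empty =>
    have : v ∆ (∅ : Finset X) = v := symmDiff_bot v
    rw [this]
  | insert c F hc ih =>
    have hcc := hF c (Finset.mem_insert_self _ _)
    rw [B1.sd_insert v F hc, ih (B1.inv_flip1 hK s v c hs (hcc.1.trans hcc.2.symm))
      (fun c' hc' => hF c' (Finset.mem_insert_of_mem hc'))]
    exact local_same1 hK b hs hcc x y hx

theorem local_num [Finite E] (hK : K.IsCore) {v F G : Finset X} {s : E → Bool} (b : Bool)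
    (hs : ∀ x y, K.same v x y → s x = s y)
    (hF : ∀ c ∈ F, s (K.tail c) = b ∧ s (K.head c) = b)
    (hG : ∀ c ∈ G, s (K.tail c) = !b ∧ s (K.head c) = !b) :
    K.num ((v ∆ F) ∆ G) + K.num v = K.num (v ∆ F) + K.num (v ∆ G) := by
  induction G using Finset.induction_on with
  | empty =>
    have h1 : v ∆ (∅ : Finset X) = v := symmDiff_bot v
    have h2 : (v ∆ F) ∆ (∅ : Finset X) = v ∆ F := symmDiff_bot _
    rw [h1, h2]
  | insert g G hg ih =>
    have ih' := ih (fun c' hc' => hG c' (Finset.mem_insert_of_mem hc'))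
    have hgg := hG g (Finset.mem_insert_self _ _)
    rw [B1.sd_insert' _ _ hg, B1.sd_insert' _ _ hg]
    have hs' : ∀ x y, K.same (v ∆ G) x y → s x = s y :=
      B1.inv_flip hK s v G hs (fun c hc =>
        (hG c (Finset.mem_insert_of_mem hc)).1.trans (hG c (Finset.mem_insert_of_mem hc)).2.symm)
    have hl : K.Loop ((v ∆ F) ∆ G) g ↔ K.Loop (v ∆ G) g := by
      unfold Cube.Loop
      rw [sd_swap]
      exact local_same hK b hs' hF _ _ hgg.1
    by_cases h : K.Loop (v ∆ G) g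
    · rw [B1.num_flip_loop hK h, B1.num_flip_loop hK (hl.2 h)]
      omega
    · have h1 := B1.num_flip_nonloop hK h
      have h2 := B1.num_flip_nonloop hK (fun h' => h (hl.1 h'))
      omega

theorem local_Crs (hK : K.IsCore) (s0 : Bool) {v F : Finset X} {s : E → Bool} (b : Bool)
    (hs : ∀ x y, K.same v x y → s x = s y)
    (hF : ∀ c ∈ F, s (K.tail c) = b ∧ s (K.head c) = b) (e f : X)
    (he : s (K.tail e) = !b ∧ s (K.head e) = !b)
    (hf : s (K.tail f) = !b ∧ s (K.head f) = !b) :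
    K.Crs s0 (v ∆ F) e f ↔ K.Crs s0 v e f := by
  unfold Cube.Crs
  have hs' := B1.inv_flip1 hK s v f hs (hf.1.trans hf.2.symm)
  rw [sd_swap v F {f}]
  rw [local_same hK b hs hF _ _ he.1, local_same hK b hs hF _ _ hf.1,
    local_same hK b hs' hF _ _ he.1, local_same hK b hs' hF _ _ he.1]

theorem local_AC (hK : K.IsCore) (s0 : Bool) {v F G : Finset X} {s : E → Bool} (b : Bool)
    (hs : ∀ x y, K.same v x y → s x = s y)
    (hF : ∀ c ∈ F, s (K.tail c) = b ∧ s (K.head c) = b)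
    (hG : ∀ c ∈ G, s (K.tail c) = !b ∧ s (K.head c) = !b) :
    K.AC s0 (v ∆ F) G ↔ K.AC s0 v G := by
  have hsF : ∀ x y, K.same (v ∆ F) x y → s x = s y :=
    B1.inv_flip hK s v F hs (fun c hc => (hF c hc).1.trans (hF c hc).2.symm)
  have hloc := local_same hK b hs hF
  refine or_congr ?_ ?_
  · constructor
    · rintro ⟨⟨g0, hg0⟩, a, a', h1, h2⟩
      have ha : s a = !b := (hsF _ _ (h2 g0 hg0).1).symm.trans (hG g0 hg0).1
      refine ⟨⟨g0, hg0⟩, a, a', fun h => h1 ((hloc _ _ ha).2 h), fun g hg => ?_⟩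
      exact ⟨(hloc _ _ (hG g hg).1).1 (h2 g hg).1, (hloc _ _ (hG g hg).2).1 (h2 g hg).2⟩
    · rintro ⟨⟨g0, hg0⟩, a, a', h1, h2⟩
      have ha : s a = !b := (hs _ _ (h2 g0 hg0).1).symm.trans (hG g0 hg0).1
      refine ⟨⟨g0, hg0⟩, a, a', fun h => h1 ((hloc _ _ ha).1 h), fun g hg => ?_⟩
      exact ⟨(hloc _ _ (hG g hg).1).2 (h2 g hg).1, (hloc _ _ (hG g hg).2).2 (h2 g hg).2⟩
  · unfold Cube.Bun
    constructor
    · rintro ⟨A, B, h1, h2, h3, h4, h5⟩
      refine ⟨A, B, h1, h2, h3, h4, fun e he f hf => ?_⟩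
      have he' : e ∈ G := h1 ▸ Finset.mem_union_left _ he
      have hf' : f ∈ G := h1 ▸ Finset.mem_union_right _ hf
      exact (local_Crs hK s0 b hs hF e f (hG e he') (hG f hf')).1 (h5 e he f hf)
    · rintro ⟨A, B, h1, h2, h3, h4, h5⟩
      refine ⟨A, B, h1, h2, h3, h4, fun e he f hf => ?_⟩
      have he' : e ∈ G := h1 ▸ Finset.mem_union_left _ he
      have hf' : f ∈ G := h1 ▸ Finset.mem_union_right _ hf
      exact (local_Crs hK s0 b hs hF e f (hG e he') (hG f hf')).2 (h5 e he f hf)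

/-- interleaved arcs lie on the same circle -/
theorem Crs_same (hK : K.IsCore) {s0 : Bool} {v : Finset X} {e g : X} (h : K.Crs s0 v e g) :
    K.same v (K.tail e) (K.tail g) := by
  obtain ⟨h1, h2, h3, -⟩ := h
  have hnl := hK.split v g h2
  have hm := hK.merge (v ∆ {g}) g hnl (K.tail e) (K.head e)
  rw [B1.sd_cancel] at hm
  rcases hm.1 h1 with h4 | ⟨h4, _⟩ | ⟨h4, _⟩
  · exact absurd h4 h3
  · exact B1.finer1 hK h2 h4
  · exact B1.trans hK (B1.finer1 hK h2 h4) (B1.symm hK h2)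

/-- sets of type A or C are connected -/
theorem AC_conn (hK : K.IsCore) {s0 : Bool} {v G : Finset X} (h : K.AC s0 v G) {α : Type}
    (f : E → α) (hf : ∀ x y, K.same v x y → f x = f y)
    (hG : ∀ c ∈ G, f (K.tail c) = f (K.head c)) :
    ∀ c ∈ G, ∀ c' ∈ G, f (K.tail c) = f (K.tail c') := by
  intro c hc c' hc'
  rcases h with ⟨_, a, a', _, h2⟩ | ⟨A, B, h1, _, ⟨e0, he0⟩, ⟨g0, hg0⟩, h5⟩
  · exact (hf _ _ (h2 c hc).1).trans (hf _ _ (h2 c' hc').1).symm
  · have key : ∀ c ∈ G, f (K.tail c) = f (K.tail e0) := by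
      intro c hc
      rw [← h1] at hc
      have he0g0 := hf _ _ (Crs_same hK (h5 e0 he0 g0 hg0))
      rcases Finset.mem_union.1 hc with hc | hc
      · exact (hf _ _ (Crs_same hK (h5 c hc g0 hg0))).trans he0g0.symm
      · exact (hf _ _ (Crs_same hK (h5 e0 he0 c hc))).symm
    exact (key c hc).trans (key c' hc').symm

end B2
end Pool.Agent.helper20.Sz
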